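import Pool.Agent.Helper778.SapNormal

set_option autoImplicit false
set_option maxHeartbeats 4000000

namespace Pool.Agent.X258.SAP

open Polynomial Matrix Pool.Agent.Helper778.Real Pool.Agent.Helper778.Sap

/-- Some real matrix with the zero-nonzero pattern `Z` has characteristic polynomial `p`. -/
def Real1 {ι : Type} [Fintype ι] [DecidableEq ι] (Z : Matrix ι ι Bool) (p : ℝ[X]) : Prop :=
  ∃ M : Matrix ι ι ℝ, (∀ i j, (M i j ≠ 0 ↔ Z i j = true)) ∧ M.charpoly = p

theorem zero_of {ι : Type} {Z : Matrix ι ι Bool} {M : Matrix ι ι ℝ}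
    (h : ∀ i j, (M i j ≠ 0 ↔ Z i j = true)) (i j : ι) (hz : Z i j = false) : M i j = 0 := by
  by_contra hne
  have := (h i j).1 hne
  rw [hz] at this
  exact Bool.false_ne_true this

theorem ne_of {ι : Type} {Z : Matrix ι ι Bool} {M : Matrix ι ι ℝ}
    (h : ∀ i j, (M i j ≠ 0 ↔ Z i j = true)) (i j : ι) (hz : Z i j = true) : M i j ≠ 0 :=
  (h i j).2 hz

/-! ### Comparing coefficients -/

theorem coeffs6 {c1 c2 c3 c4 c5 c6 d1 d2 d3 d4 d5 d6 : ℝ}
    (h : (X ^ 6 + C c1 * X ^ 5 + C c2 * X ^ 4 + C c3 * X ^ 3 + C c4 * X ^ 2 + C c5 * X + C c6 : ℝ[X])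
      = X ^ 6 + C d1 * X ^ 5 + C d2 * X ^ 4 + C d3 * X ^ 3 + C d4 * X ^ 2 + C d5 * X + C d6) :
    c1 = d1 ∧ c2 = d2 ∧ c3 = d3 ∧ c4 = d4 ∧ c5 = d5 ∧ c6 = d6 := by
  refine ⟨?_, ?_, ?_, ?_, ?_, ?_⟩
  · simpa [coeff_X, coeff_C, coeff_X_pow] using congrArg (fun q => coeff q 5) h
  · simpa [coeff_X, coeff_C, coeff_X_pow] using congrArg (fun q => coeff q 4) h
  · simpa [coeff_X, coeff_C, coeff_X_pow] using congrArg (fun q => coeff q 3) h
  · simpa [coeff_X, coeff_C, coeff_X_pow] using congrArg (fun q => coeff q 2) h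
  · simpa [coeff_X, coeff_C, coeff_X_pow] using congrArg (fun q => coeff q 1) h
  · simpa [coeff_X, coeff_C, coeff_X_pow] using congrArg (fun q => coeff q 0) h

theorem coeffs8 {c1 c2 c3 c4 c5 c6 c7 c8 d1 d2 d3 d4 d5 d6 d7 d8 : ℝ}
    (h : (X ^ 8 + C c1 * X ^ 7 + C c2 * X ^ 6 + C c3 * X ^ 5 + C c4 * X ^ 4 + C c5 * X ^ 3 + C c6 * X ^ 2 + C c7 * X + C c8 : ℝ[X])
      = X ^ 8 + C d1 * X ^ 7 + C d2 * X ^ 6 + C d3 * X ^ 5 + C d4 * X ^ 4 + C d5 * X ^ 3 + C d6 * X ^ 2 + C d7 * X + C d8) :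
    c1 = d1 ∧ c2 = d2 ∧ c3 = d3 ∧ c4 = d4 ∧ c5 = d5 ∧ c6 = d6 ∧ c7 = d7 ∧ c8 = d8 := by
  refine ⟨?_, ?_, ?_, ?_, ?_, ?_, ?_, ?_⟩
  · simpa [coeff_X, coeff_C, coeff_X_pow] using congrArg (fun q => coeff q 7) h
  · simpa [coeff_X, coeff_C, coeff_X_pow] using congrArg (fun q => coeff q 6) h
  · simpa [coeff_X, coeff_C, coeff_X_pow] using congrArg (fun q => coeff q 5) h
  · simpa [coeff_X, coeff_C, coeff_X_pow] using congrArg (fun q => coeff q 4) h
  · simpa [coeff_X, coeff_C, coeff_X_pow] using congrArg (fun q => coeff q 3) h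
  · simpa [coeff_X, coeff_C, coeff_X_pow] using congrArg (fun q => coeff q 2) h
  · simpa [coeff_X, coeff_C, coeff_X_pow] using congrArg (fun q => coeff q 1) h
  · simpa [coeff_X, coeff_C, coeff_X_pow] using congrArg (fun q => coeff q 0) h

/-! ### The block of order six -/

theorem det_Z6 {R : Type} [CommRing R] (x a p u' r s k z u b w t : R) :
    (!![x - a, 0, 0, -p, 0, 0;
     0, x, 0, 0, 0, -r;
     -s, 0, x, 0, -k, 0;
     0, -u', -z, x, 0, 0;
     0, 0, -u, 0, x - b, 0;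
     -w, 0, -t, 0, 0, x] : Matrix (Fin 6) (Fin 6) R).det
      = x ^ 6 + (-(a + b)) * x ^ 5 + (a * b - u * k) * x ^ 4
        + (a * (u * k) - p * z * s) * x ^ 3
        + (b * (p * z * s) - p * u' * r * w) * x ^ 2
        + (b * (p * u' * r * w) - p * u' * r * t * s) * x
        + (u * k * (p * u' * r * w) + b * (p * u' * r * t * s)) := by
  rw [det_six]
  simp
  simp only [det_five]
  simp
  simp only [det_four]
  simp
  ring


theorem charpoly_Z6 (M : Matrix (Fin 6) (Fin 6) ℝ) (h : ∀ i j, (M i j ≠ 0 ↔ Z6 i j = true)) :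
    ∃ a b U P W T : ℝ, U ≠ 0 ∧ W ≠ 0 ∧
      M.charpoly = X ^ 6 + C (-(a + b)) * X ^ 5 + C (a * b - U) * X ^ 4
        + C (a * U - P) * X ^ 3 + C (b * P - W) * X ^ 2
        + C (b * W - T) * X + C (U * W + b * T) := by
  have z := zero_of h
  have hc : charmatrix M =
      !![X - C (M 0 0), 0, 0, -C (M 0 3), 0, 0;
     0, X, 0, 0, 0, -C (M 1 5);
     -C (M 2 0), 0, X, 0, -C (M 2 4), 0;
     0, -C (M 3 1), -C (M 3 2), X, 0, 0;
     0, 0, -C (M 4 2), 0, X - C (M 4 4), 0;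
     -C (M 5 0), 0, -C (M 5 2), 0, 0, X] := by
    have z01 := z 0 1 (by decide)
    have z02 := z 0 2 (by decide)
    have z04 := z 0 4 (by decide)
    have z05 := z 0 5 (by decide)
    have z10 := z 1 0 (by decide)
    have z11 := z 1 1 (by decide)
    have z12 := z 1 2 (by decide)
    have z13 := z 1 3 (by decide)
    have z14 := z 1 4 (by decide)
    have z21 := z 2 1 (by decide)
    have z22 := z 2 2 (by decide)
    have z23 := z 2 3 (by decide)
    have z25 := z 2 5 (by decide)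
    have z30 := z 3 0 (by decide)
    have z33 := z 3 3 (by decide)
    have z34 := z 3 4 (by decide)
    have z35 := z 3 5 (by decide)
    have z40 := z 4 0 (by decide)
    have z41 := z 4 1 (by decide)
    have z43 := z 4 3 (by decide)
    have z45 := z 4 5 (by decide)
    have z51 := z 5 1 (by decide)
    have z53 := z 5 3 (by decide)
    have z54 := z 5 4 (by decide)
    have z55 := z 5 5 (by decide)
    ext i j : 1
    fin_cases i <;> fin_cases j <;> simp [*]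
  refine ⟨M 0 0, M 4 4, M 4 2 * M 2 4, M 0 3 * M 3 2 * M 2 0,
    M 0 3 * M 3 1 * M 1 5 * M 5 0, M 0 3 * M 3 1 * M 1 5 * M 5 2 * M 2 0, ?_, ?_, ?_⟩
  · exact mul_ne_zero (ne_of h 4 2 (by decide)) (ne_of h 2 4 (by decide))
  · exact mul_ne_zero (mul_ne_zero (mul_ne_zero (ne_of h 0 3 (by decide))
      (ne_of h 3 1 (by decide))) (ne_of h 1 5 (by decide))) (ne_of h 5 0 (by decide))
  · rw [Matrix.charpoly, hc, det_Z6]
    simp only [map_add, map_sub, map_mul, map_neg]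

/-- The polynomial `x ^ 6 + 1` is not realized by the block of order six. -/
theorem not_Z6 : ¬ Real1 Z6 (X ^ 6 + 1) := by
  rintro ⟨M, h, hc⟩
  obtain ⟨a, b, U, P, W, T, hU, hW, e⟩ := charpoly_Z6 M h
  have e0 : M.charpoly = X ^ 6 + C 0 * X ^ 5 + C 0 * X ^ 4 + C 0 * X ^ 3 + C 0 * X ^ 2 + C 0 * X
      + C 1 := by
    rw [hc]; simp
  rw [e0] at e
  obtain ⟨h1, h2, h3, h4, h5, h6⟩ := coeffs6 e
  have hb : b = -a := by linarith
  subst hb
  have hU' : U = -a ^ 2 := by linear_combination h2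
  subst hU'
  have hP : P = -a ^ 3 := by linear_combination h3
  subst hP
  have hW' : W = a ^ 4 := by linear_combination h4
  subst hW'
  have hT : T = -a ^ 5 := by linear_combination h5
  subst hT
  have : (1 : ℝ) = 0 := by linear_combination h6
  exact one_ne_zero this


/-! ### The block `ZB` -/

theorem det_ZB {R : Type} [CommRing R] (x m00 m02 m11 m12 m14 m20 m23 m31 m44 m45 m54 m56 m67 m70 m76 : R) :
    (!![x - m00, 0, -m02, 0, 0, 0, 0, 0;
     0, x - m11, -m12, 0, -m14, 0, 0, 0;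
     -m20, 0, x, -m23, 0, 0, 0, 0;
     0, -m31, 0, x, 0, 0, 0, 0;
     0, 0, 0, 0, x - m44, -m45, 0, 0;
     0, 0, 0, 0, -m54, x, -m56, 0;
     0, 0, 0, 0, 0, 0, x, -m67;
     -m70, 0, 0, 0, 0, 0, -m76, x] : Matrix (Fin 8) (Fin 8) R).det
      = x ^ 8 + (-((m00) + (m11)) - (m44)) * x ^ 7 + ((m00) * (m11) - (m02 * m20) + (m44) * ((m00) + (m11)) - (m45 * m54) - (m67 * m76)) * x ^ 6 + ((m11) * (m02 * m20) - (m12 * m23 * m31) - (m44) * ((m00) * (m11) - (m02 * m20)) + (m45 * m54) * ((m00) + (m11)) - (m67 * m76) * (-((m00) + (m11)) - (m44))) * x ^ 5 + ((m00) * (m12 * m23 * m31) - (m44) * ((m11) * (m02 * m20) - (m12 * m23 * m31)) - (m45 * m54) * ((m00) * (m11) - (m02 * m20)) - (m67 * m76) * ((m00) * (m11) - (m02 * m20) + (m44) * ((m00) + (m11)) - (m45 * m54))) * x ^ 4 + (-((m44) * ((m00) * (m12 * m23 * m31))) - (m45 * m54) * ((m11) * (m02 * m20) - (m12 * m23 * m31)) - (m67 * m76) * ((m11) * (m02 * m20) - (m12 * m23 * m31) - (m44)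 * ((m00) * (m11) - (m02 * m20)) + (m45 * m54) * ((m00) + (m11)))) * x ^ 3 + (-((m45 * m54) * ((m00) * (m12 * m23 * m31))) - (m67 * m76) * ((m00) * (m12 * m23 * m31) - (m44) * ((m11) * (m02 * m20) - (m12 * m23 * m31)) - (m45 * m54) * ((m00) * (m11) - (m02 * m20)))) * x ^ 2 + (-((m67 * m76) * (-((m44) * ((m00) * (m12 * m23 * m31))) - (m45 * m54) * ((m11) * (m02 * m20) - (m12 * m23 * m31))))) * x + ((m67 * m76) * ((m45 * m54) * ((m00) * (m12 * m23 * m31))) - (m02 * m23 * m31 * m14 * m45 * m56 * m67 * m70)) := by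
  rw [det_eight]
  simp
  simp only [det_seven]
  simp
  simp only [det_six]
  simp
  simp only [det_five]
  simp
  simp only [det_four]
  simp
  ring

theorem charpoly_ZB (M : Matrix (Fin 8) (Fin 8) ℝ) (h : ∀ i j, (M i j ≠ 0 ↔ ZB i j = true)) :
    ∃ a b a' U V U' Z K : ℝ, 
      M.charpoly = X ^ 8 + C (-(a + b) - a') * X ^ 7 + C (a * b - U + a' * (a + b) - U' - Z) * X ^ 6 + C (b * U - V - a' * (a * b - U) + U' * (a + b) - Z * (-(a + b) - a')) * X ^ 5 + C (a * V - a' * (b * U - V) - U' * (a * b - U) - Z * (a * b - U + a' * (a + b) - U')) * X ^ 4 + C (-(a' * (a * V)) - U' * (b * U - V) - Z * (b * U - V - a' * (a * b - U) + U' * (a + b))) * X ^ 3 + C (-(U' * (a * V)) - Z * (a * V - a' * (b * U - V) - U' * (a * b - U))) * X ^ 2 + C (-(Z * (-(a' * (a * V)) - U' * (b * U - V)))) * X + C (Z * (U' * (a * V)) - K) := by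
  have z := zero_of h
  have hc : charmatrix M = !![X - C (M 0 0), 0, -C (M 0 2), 0, 0, 0, 0, 0;
     0, X - C (M 1 1), -C (M 1 2), 0, -C (M 1 4), 0, 0, 0;
     -C (M 2 0), 0, X, -C (M 2 3), 0, 0, 0, 0;
     0, -C (M 3 1), 0, X, 0, 0, 0, 0;
     0, 0, 0, 0, X - C (M 4 4), -C (M 4 5), 0, 0;
     0, 0, 0, 0, -C (M 5 4), X, -C (M 5 6), 0;
     0, 0, 0, 0, 0, 0, X, -C (M 6 7);
     -C (M 7 0), 0, 0, 0, 0, 0, -C (M 7 6), X] := by
    have z01 := z 0 1 (by decide)
    have z03 := z 0 3 (by decide)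
    have z04 := z 0 4 (by decide)
    have z05 := z 0 5 (by decide)
    have z06 := z 0 6 (by decide)
    have z07 := z 0 7 (by decide)
    have z10 := z 1 0 (by decide)
    have z13 := z 1 3 (by decide)
    have z15 := z 1 5 (by decide)
    have z16 := z 1 6 (by decide)
    have z17 := z 1 7 (by decide)
    have z21 := z 2 1 (by decide)
    have z22 := z 2 2 (by decide)
    have z24 := z 2 4 (by decide)
    have z25 := z 2 5 (by decide)
    have z26 := z 2 6 (by decide)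
    have z27 := z 2 7 (by decide)
    have z30 := z 3 0 (by decide)
    have z32 := z 3 2 (by decide)
    have z33 := z 3 3 (by decide)
    have z34 := z 3 4 (by decide)
    have z35 := z 3 5 (by decide)
    have z36 := z 3 6 (by decide)
    have z37 := z 3 7 (by decide)
    have z40 := z 4 0 (by decide)
    have z41 := z 4 1 (by decide)
    have z42 := z 4 2 (by decide)
    have z43 := z 4 3 (by decide)
    have z46 := z 4 6 (by decide)
    have z47 := z 4 7 (by decide)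
    have z50 := z 5 0 (by decide)
    have z51 := z 5 1 (by decide)
    have z52 := z 5 2 (by decide)
    have z53 := z 5 3 (by decide)
    have z55 := z 5 5 (by decide)
    have z57 := z 5 7 (by decide)
    have z60 := z 6 0 (by decide)
    have z61 := z 6 1 (by decide)
    have z62 := z 6 2 (by decide)
    have z63 := z 6 3 (by decide)
    have z64 := z 6 4 (by decide)
    have z65 := z 6 5 (by decide)
    have z66 := z 6 6 (by decide)
    have z71 := z 7 1 (by decide)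
    have z72 := z 7 2 (by decide)
    have z73 := z 7 3 (by decide)
    have z74 := z 7 4 (by decide)
    have z75 := z 7 5 (by decide)
    have z77 := z 7 7 (by decide)
    ext i j : 1
    fin_cases i <;> fin_cases j <;> simp [*]
  refine ⟨M 0 0, M 1 1, M 4 4, M 0 2 * M 2 0, M 1 2 * M 2 3 * M 3 1, M 4 5 * M 5 4, M 6 7 * M 7 6, M 0 2 * M 2 3 * M 3 1 * M 1 4 * M 4 5 * M 5 6 * M 6 7 * M 7 0, ?_⟩
  rw [Matrix.charpoly, hc, det_ZB]
  simp only [map_add, map_sub, map_mul, map_neg]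


/-! ### The block `ZT` -/

theorem det_ZT {R : Type} [CommRing R] (x m00 m01 m02 m10 m14 m15 m24 m27 m31 m33 m43 m52 m64 m67 m76 : R) :
    (!![x - m00, -m01, -m02, 0, 0, 0, 0, 0;
     -m10, x, 0, 0, -m14, -m15, 0, 0;
     0, 0, x, 0, -m24, 0, 0, -m27;
     0, -m31, 0, x - m33, 0, 0, 0, 0;
     0, 0, 0, -m43, x, 0, 0, 0;
     0, 0, -m52, 0, 0, x, 0, 0;
     0, 0, 0, 0, -m64, 0, x, -m67;
     0, 0, 0, 0, 0, 0, -m76, x] : Matrix (Fin 8) (Fin 8) R).det
      = x ^ 8 + (-((m00) + (m33))) * x ^ 7 + ((m00) * (m33) - (m01 * m10) - (m67 * m76)) * x ^ 6 + (-(m14 * m43 * m31) + ((m00) + (m33)) * (m67 * m76) + (m33) * (m01 * m10)) * x ^ 5 + ((m00) * (m14 * m43 * m31) + (m01 * m10) * (m67 * m76) - (m00) * (m33) * (m67 * m76)) * x ^ 4 + (-(m15 * m52 * m24 * m43 * m31) - (m02 * m24 * m43 * m31 * m10) + (m14 * m43 * m31) * (m67 * m76) - (m33) * (m01 * m10) * (m67 * m76)) * x ^ 3 + ((m00) * (m15 * m52 * m24 * m43 * m31) - (m00) * (m14 *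 m43 * m31) * (m67 * m76)) * x ^ 2 + (-(m15 * m52 * m27 * m76 * m64 * m43 * m31) - (m02 * m27 * m76 * m64 * m43 * m31 * m10) + (m15 * m52 * m24 * m43 * m31) * (m67 * m76) + (m02 * m24 * m43 * m31 * m10) * (m67 * m76)) * x + ((m00) * (m15 * m52 * m27 * m76 * m64 * m43 * m31) - (m00) * (m15 * m52 * m24 * m43 * m31) * (m67 * m76)) := by
  rw [det_eight]
  simp
  simp only [det_seven]
  simp
  simp only [det_six]
  simp
  simp only [det_five]
  simp
  simp only [det_four]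
  simp
  ring

theorem charpoly_ZT (M : Matrix (Fin 8) (Fin 8) ℝ) (h : ∀ i j, (M i j ≠ 0 ↔ ZT i j = true)) :
    ∃ a b U Y V S E S1 E1 : ℝ, S * E1 = S1 * E ∧ S ≠ 0 ∧ 
      M.charpoly = X ^ 8 + C (-(a + b)) * X ^ 7 + C (a * b - U - Y) * X ^ 6 + C (-V + (a + b) * Y + b * U) * X ^ 5 + C (a * V + U * Y - a * b * Y) * X ^ 4 + C (-S - E + V * Y - b * U * Y) * X ^ 3 + C (a * S - a * V * Y) * X ^ 2 + C (-S1 - E1 + S * Y + E * Y) * X + C (a * S1 - a * S * Y) := by
  have z := zero_of h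
  have hc : charmatrix M = !![X - C (M 0 0), -C (M 0 1), -C (M 0 2), 0, 0, 0, 0, 0;
     -C (M 1 0), X, 0, 0, -C (M 1 4), -C (M 1 5), 0, 0;
     0, 0, X, 0, -C (M 2 4), 0, 0, -C (M 2 7);
     0, -C (M 3 1), 0, X - C (M 3 3), 0, 0, 0, 0;
     0, 0, 0, -C (M 4 3), X, 0, 0, 0;
     0, 0, -C (M 5 2), 0, 0, X, 0, 0;
     0, 0, 0, 0, -C (M 6 4), 0, X, -C (M 6 7);
     0, 0, 0, 0, 0, 0, -C (M 7 6), X] := by
    have z03 := z 0 3 (by decide)
    have z04 := z 0 4 (by decide)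
    have z05 := z 0 5 (by decide)
    have z06 := z 0 6 (by decide)
    have z07 := z 0 7 (by decide)
    have z11 := z 1 1 (by decide)
    have z12 := z 1 2 (by decide)
    have z13 := z 1 3 (by decide)
    have z16 := z 1 6 (by decide)
    have z17 := z 1 7 (by decide)
    have z20 := z 2 0 (by decide)
    have z21 := z 2 1 (by decide)
    have z22 := z 2 2 (by decide)
    have z23 := z 2 3 (by decide)
    have z25 := z 2 5 (by decide)
    have z26 := z 2 6 (by decide)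
    have z30 := z 3 0 (by decide)
    have z32 := z 3 2 (by decide)
    have z34 := z 3 4 (by decide)
    have z35 := z 3 5 (by decide)
    have z36 := z 3 6 (by decide)
    have z37 := z 3 7 (by decide)
    have z40 := z 4 0 (by decide)
    have z41 := z 4 1 (by decide)
    have z42 := z 4 2 (by decide)
    have z44 := z 4 4 (by decide)
    have z45 := z 4 5 (by decide)
    have z46 := z 4 6 (by decide)
    have z47 := z 4 7 (by decide)
    have z50 := z 5 0 (by decide)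
    have z51 := z 5 1 (by decide)
    have z53 := z 5 3 (by decide)
    have z54 := z 5 4 (by decide)
    have z55 := z 5 5 (by decide)
    have z56 := z 5 6 (by decide)
    have z57 := z 5 7 (by decide)
    have z60 := z 6 0 (by decide)
    have z61 := z 6 1 (by decide)
    have z62 := z 6 2 (by decide)
    have z63 := z 6 3 (by decide)
    have z65 := z 6 5 (by decide)
    have z66 := z 6 6 (by decide)
    have z70 := z 7 0 (by decide)
    have z71 := z 7 1 (by decide)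
    have z72 := z 7 2 (by decide)
    have z73 := z 7 3 (by decide)
    have z74 := z 7 4 (by decide)
    have z75 := z 7 5 (by decide)
    have z77 := z 7 7 (by decide)
    ext i j : 1
    fin_cases i <;> fin_cases j <;> simp [*]
  refine ⟨M 0 0, M 3 3, M 0 1 * M 1 0, M 6 7 * M 7 6, M 1 4 * M 4 3 * M 3 1, M 1 5 * M 5 2 * M 2 4 * M 4 3 * M 3 1, M 0 2 * M 2 4 * M 4 3 * M 3 1 * M 1 0, M 1 5 * M 5 2 * M 2 7 * M 7 6 * M 6 4 * M 4 3 * M 3 1, M 0 2 * M 2 7 * M 7 6 * M 6 4 * M 4 3 * M 3 1 * M 1 0, by ring, ?_, ?_⟩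
  · exact mul_ne_zero (mul_ne_zero (mul_ne_zero (mul_ne_zero (ne_of h 1 5 (by decide))
      (ne_of h 5 2 (by decide))) (ne_of h 2 4 (by decide))) (ne_of h 4 3 (by decide)))
      (ne_of h 3 1 (by decide))
  rw [Matrix.charpoly, hc, det_ZT]
  simp only [map_add, map_sub, map_mul, map_neg]


/-! ### The block `ZJ` -/

theorem det_ZJ {R : Type} [CommRing R] (x m00 m06 m13 m15 m21 m34 m40 m47 m56 m57 m60 m62 m67 m75 m77 : R) :
    (!![x - m00, 0, 0, 0, 0, 0, -m06, 0;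
     0, x, 0, -m13, 0, -m15, 0, 0;
     0, -m21, x, 0, 0, 0, 0, 0;
     0, 0, 0, x, -m34, 0, 0, 0;
     -m40, 0, 0, 0, x, 0, 0, -m47;
     0, 0, 0, 0, 0, x, -m56, -m57;
     -m60, 0, -m62, 0, 0, 0, x, -m67;
     0, 0, 0, 0, 0, -m75, 0, x - m77] : Matrix (Fin 8) (Fin 8) R).det
      = x ^ 8 + (-((m00) + (m77))) * x ^ 7 + ((m00) * (m77) - (m06 * m60) - (m57 * m75)) * x ^ 6 + (-(m56 * m67 * m75) + (m77) * (m06 * m60) + (m00) * (m57 * m75)) * x ^ 5 + (-(m62 * m21 * m15 * m56) + (m00) * (m56 * m67 * m75) + (m06 * m60) * (m57 * m75)) * x ^ 4 + (((m00) + (m77)) * (m62 * m21 * m15 * m56)) * x ^ 3 + (-(m62 * m21 * m13 * m34 * m40 * m06) - (m00) * (m77) * (m62 * m21 * m15 * m56)) * x ^ 2 + (-(m62 * m21 * m13 * m34 * m47 * m75 * m56) + (m77) * (m62 * m21 * m13 * m34 * m40 * m06)) * x + ((m00) * (m62 * m21 * m13 * m34 * m47 * m75 * m56) + (m57 * m75) * (m62 * m21 * m13 * m34 * m40 * m06)) := by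
  rw [det_eight]
  simp
  simp only [det_seven]
  simp
  simp only [det_six]
  simp
  simp only [det_five]
  simp
  simp only [det_four]
  simp
  ring

theorem charpoly_ZJ (M : Matrix (Fin 8) (Fin 8) ℝ) (h : ∀ i j, (M i j ≠ 0 ↔ ZJ i j = true)) :
    ∃ a b U W T Q H H1 : ℝ, 
      M.charpoly = X ^ 8 + C (-(a + b)) * X ^ 7 + C (a * b - U - W) * X ^ 6 + C (-T + b * U + a * W) * X ^ 5 + C (-Q + a * T + U * W) * X ^ 4 + C ((a + b) * Q) * X ^ 3 + C (-H - a * b * Q) * X ^ 2 + C (-H1 + b * H) * X + C (a * H1 + W * H) := by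
  have z := zero_of h
  have hc : charmatrix M = !![X - C (M 0 0), 0, 0, 0, 0, 0, -C (M 0 6), 0;
     0, X, 0, -C (M 1 3), 0, -C (M 1 5), 0, 0;
     0, -C (M 2 1), X, 0, 0, 0, 0, 0;
     0, 0, 0, X, -C (M 3 4), 0, 0, 0;
     -C (M 4 0), 0, 0, 0, X, 0, 0, -C (M 4 7);
     0, 0, 0, 0, 0, X, -C (M 5 6), -C (M 5 7);
     -C (M 6 0), 0, -C (M 6 2), 0, 0, 0, X, -C (M 6 7);
     0, 0, 0, 0, 0, -C (M 7 5), 0, X - C (M 7 7)] := by
    have z01 := z 0 1 (by decide)
    have z02 := z 0 2 (by decide)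
    have z03 := z 0 3 (by decide)
    have z04 := z 0 4 (by decide)
    have z05 := z 0 5 (by decide)
    have z07 := z 0 7 (by decide)
    have z10 := z 1 0 (by decide)
    have z11 := z 1 1 (by decide)
    have z12 := z 1 2 (by decide)
    have z14 := z 1 4 (by decide)
    have z16 := z 1 6 (by decide)
    have z17 := z 1 7 (by decide)
    have z20 := z 2 0 (by decide)
    have z22 := z 2 2 (by decide)
    have z23 := z 2 3 (by decide)
    have z24 := z 2 4 (by decide)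
    have z25 := z 2 5 (by decide)
    have z26 := z 2 6 (by decide)
    have z27 := z 2 7 (by decide)
    have z30 := z 3 0 (by decide)
    have z31 := z 3 1 (by decide)
    have z32 := z 3 2 (by decide)
    have z33 := z 3 3 (by decide)
    have z35 := z 3 5 (by decide)
    have z36 := z 3 6 (by decide)
    have z37 := z 3 7 (by decide)
    have z41 := z 4 1 (by decide)
    have z42 := z 4 2 (by decide)
    have z43 := z 4 3 (by decide)
    have z44 := z 4 4 (by decide)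
    have z45 := z 4 5 (by decide)
    have z46 := z 4 6 (by decide)
    have z50 := z 5 0 (by decide)
    have z51 := z 5 1 (by decide)
    have z52 := z 5 2 (by decide)
    have z53 := z 5 3 (by decide)
    have z54 := z 5 4 (by decide)
    have z55 := z 5 5 (by decide)
    have z61 := z 6 1 (by decide)
    have z63 := z 6 3 (by decide)
    have z64 := z 6 4 (by decide)
    have z65 := z 6 5 (by decide)
    have z66 := z 6 6 (by decide)
    have z70 := z 7 0 (by decide)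
    have z71 := z 7 1 (by decide)
    have z72 := z 7 2 (by decide)
    have z73 := z 7 3 (by decide)
    have z74 := z 7 4 (by decide)
    have z76 := z 7 6 (by decide)
    ext i j : 1
    fin_cases i <;> fin_cases j <;> simp [*]
  refine ⟨M 0 0, M 7 7, M 0 6 * M 6 0, M 5 7 * M 7 5, M 5 6 * M 6 7 * M 7 5, M 6 2 * M 2 1 * M 1 5 * M 5 6, M 6 2 * M 2 1 * M 1 3 * M 3 4 * M 4 0 * M 0 6, M 6 2 * M 2 1 * M 1 3 * M 3 4 * M 4 7 * M 7 5 * M 5 6, ?_⟩
  rw [Matrix.charpoly, hc, det_ZJ]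
  simp only [map_add, map_sub, map_mul, map_neg]

/-- The polynomial `x ^ 8 + x` is not realized by `ZB`. -/
theorem not_ZB : ¬ Real1 ZB (X ^ 8 + X) := by
  rintro ⟨M, h, hc⟩
  obtain ⟨a, b, a', U, V, U', Z, K, e⟩ := charpoly_ZB M h
  have e0 : M.charpoly = X ^ 8 + C 0 * X ^ 7 + C 0 * X ^ 6 + C 0 * X ^ 5 + C 0 * X ^ 4
      + C 0 * X ^ 3 + C 0 * X ^ 2 + C 1 * X + C 0 := by
    rw [hc]; simp
  rw [e0] at e
  obtain ⟨h1, h2, h3, h4, h5, h6, h7, h8⟩ := coeffs8 e
  have : (1 : ℝ) = 0 := by linear_combination h7 + Z * h5 + Z ^ 2 * h3 + Z ^ 3 * h1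
  exact one_ne_zero this

/-- The polynomial `x ^ 8 + x ^ 3 + 1` is not realized by `ZT`. -/
theorem not_ZT : ¬ Real1 ZT (X ^ 8 + X ^ 3 + 1) := by
  rintro ⟨M, h, hc⟩
  obtain ⟨a, b, U, Y, V, S, E, S1, E1, hSE, hS, e⟩ := charpoly_ZT M h
  have e0 : M.charpoly = X ^ 8 + C 0 * X ^ 7 + C 0 * X ^ 6 + C 0 * X ^ 5 + C 0 * X ^ 4
      + C 1 * X ^ 3 + C 0 * X ^ 2 + C 0 * X + C 1 := by
    rw [hc]; simp
  rw [e0] at e
  obtain ⟨h1, h2, h3, h4, h5, h6, h7, h8⟩ := coeffs8 e
  have hab : a + b = 0 := by linarith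
  have hV : V = b * U := by linear_combination h3 + Y * hab
  have hSE' : S + E = -1 := by rw [hV] at h5; linear_combination h5
  -- `(S + E) (S1 - S Y) = 0`
  have k1 : (S + E) * (S1 - S * Y) = 0 := by linear_combination S * h7 - hSE
  rw [hSE'] at k1
  have k2 : S1 - S * Y = 0 := by linarith
  have : (1 : ℝ) = 0 := by linear_combination h8 + a * k2
  exact one_ne_zero this

/-- The polynomial `x ^ 8 + x ^ 3` is not realized by `ZJ`. -/
theorem not_ZJ : ¬ Real1 ZJ (X ^ 8 + X ^ 3) := by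
  rintro ⟨M, h, hc⟩
  obtain ⟨a, b, U, W, T, Q, H, H1, e⟩ := charpoly_ZJ M h
  have e0 : M.charpoly = X ^ 8 + C 0 * X ^ 7 + C 0 * X ^ 6 + C 0 * X ^ 5 + C 0 * X ^ 4
      + C 1 * X ^ 3 + C 0 * X ^ 2 + C 0 * X + C 0 := by
    rw [hc]; simp
  rw [e0] at e
  obtain ⟨h1, h2, h3, h4, h5, h6, h7, h8⟩ := coeffs8 e
  have hab : a + b = 0 := by linarith
  rw [hab, zero_mul] at h5
  exact one_ne_zero h5

end Pool.Agent.X258.SAP
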