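import Pool.Agent.X258.SAP.Non

set_option autoImplicit false
set_option maxHeartbeats 4000000

namespace Pool.Agent.X258.SAP

open Polynomial Matrix Pool.Agent.Helper778.Real Pool.Agent.Helper778.Sap

/-- A pattern together with its order. -/
abbrev Pat := Σ n : ℕ, Matrix (Fin n) (Fin n) Bool

/-- The direct sum of two zero-nonzero patterns. -/
def dsum {m n : ℕ} (A : Matrix (Fin m) (Fin m) Bool) (B : Matrix (Fin n) (Fin n) Bool) :
    Matrix (Fin (m + n)) (Fin (m + n)) Bool :=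
  Matrix.reindex finSumFinEquiv finSumFinEquiv
    (Matrix.fromBlocks A (fun _ _ => false) (fun _ _ => false) B)

theorem real_dsum {m n : ℕ} {A : Matrix (Fin m) (Fin m) Bool} {B : Matrix (Fin n) (Fin n) Bool}
    {p q : ℝ[X]} (hA : Real1 A p) (hB : Real1 B q) : Real1 (dsum A B) (p * q) := by
  obtain ⟨M, hM, hMp⟩ := hA
  obtain ⟨N, hN, hNq⟩ := hB
  refine ⟨Matrix.reindex finSumFinEquiv finSumFinEquiv (Matrix.fromBlocks M 0 0 N), ?_, ?_⟩
  · intro i j
    obtain ⟨i, rfl⟩ := finSumFinEquiv.surjective i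
    obtain ⟨j, rfl⟩ := finSumFinEquiv.surjective j
    simp only [dsum, reindex_apply, submatrix_apply, Equiv.symm_apply_apply]
    rcases i with i | i <;> rcases j with j | j
    · exact hM i j
    · change ((0 : ℝ) ≠ 0 ↔ false = true)
      simp
    · change ((0 : ℝ) ≠ 0 ↔ false = true)
      simp
    · exact hN i j
  · rw [charpoly_reindex, charpoly_fromBlocks_zero₁₂, hMp, hNq]

/-- The direct sum of a nonempty list of patterns. -/
def fold1 : Pat → List Pat → Pat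
  | P, [] => P
  | P, Q :: l => ⟨P.1 + (fold1 Q l).1, dsum P.2 (fold1 Q l).2⟩

/-- Products of realized polynomials, one for each pattern of a list. -/
def RealList : List Pat → ℝ[X] → Prop
  | [], p => p = 1
  | P :: l, p => ∃ p1 p2, Real1 P.2 p1 ∧ RealList l p2 ∧ p = p1 * p2

theorem real_fold1 (l : List Pat) : ∀ (P : Pat) (p : ℝ[X]), RealList (P :: l) p →
    Real1 (fold1 P l).2 p := by
  induction l with
  | nil =>
    rintro P p ⟨p1, p2, h1, h2, rfl⟩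
    have h2' : p2 = 1 := h2
    rw [h2', mul_one]
    exact h1
  | cons Q l ih =>
    rintro P p ⟨p1, p2, h1, h2, rfl⟩
    exact real_dsum h1 (ih Q p2 h2)

theorem realList_replicate (Z : Pat) (l : List Pat) (p' : ℝ[X]) (hl : RealList l p') (k : ℕ) :
    ∀ (M : Fin k → Matrix (Fin Z.1) (Fin Z.1) ℝ), (∀ t i j, (M t i j ≠ 0 ↔ Z.2 i j = true)) →
      RealList (List.replicate k Z ++ l) ((∏ t, (M t).charpoly) * p') := by
  induction k with
  | zero => intro M _; simpa using hl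
  | succ k ih =>
    intro M hM
    refine ⟨(M 0).charpoly, (∏ t : Fin k, (M t.succ).charpoly) * p', ⟨M 0, hM 0, rfl⟩,
      ih (fun t => M t.succ) (fun t => hM t.succ), ?_⟩
    rw [Fin.prod_univ_succ, mul_assoc]

/-- Spectrally arbitrary zero-nonzero patterns. -/
def SA {n : ℕ} (Z : Matrix (Fin n) (Fin n) Bool) : Prop :=
  ∀ p : ℝ[X], p.Monic → p.natDegree = n → Real1 Z p

theorem telescope (l : List Pat) : ∀ P : Pat, (∀ Q ∈ P :: l, ¬ SA Q.2) → SA (fold1 P l).2 →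
    ∃ (P : Pat) (Q : Pat), ¬ SA P.2 ∧ ¬ SA Q.2 ∧ SA (dsum P.2 Q.2) := by
  induction l with
  | nil =>
    intro P h hs
    exact absurd hs (h P (by simp))
  | cons Q l ih =>
    intro P h hs
    by_cases hq : SA (fold1 Q l).2
    · exact ih Q (fun R hR => h R (List.mem_cons_of_mem _ hR)) hq
    · exact ⟨P, fold1 Q l, h P (by simp), hq, hs⟩

/-- The six blocks of order eight. -/
def six : List Pat := [⟨8, ZB⟩, ⟨8, ZB⟩, ⟨8, ZB⟩, ⟨8, ZT⟩, ⟨8, ZT⟩, ⟨8, ZJ⟩]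

theorem order_fold1 (l : List Pat) : ∀ P : Pat,
    (fold1 P l).1 = P.1 + (l.map Sigma.fst).sum := by
  induction l with
  | nil => intro P; simp [fold1]
  | cons Q l ih => intro P; simp [fold1, ih]

theorem sa_big : SA (fold1 ⟨6, Z6⟩ (List.replicate 25 ⟨6, Z6⟩ ++ six)).2 := by
  intro p hp hd
  have ho : (fold1 ⟨6, Z6⟩ (List.replicate 25 ⟨6, Z6⟩ ++ six)).1 = 6 * 26 + 48 := by
    rw [order_fold1]
    simp [six]
  rw [ho] at hd
  obtain ⟨M, N, q, g, hM, hN, hq, hg, hpe⟩ := families 26 le_rfl p ⟨hd, hp⟩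
  apply real_fold1
  have h6 : RealList six (∏ t, g t) := by
    refine ⟨g 0, g 1 * (g 2 * (g 3 * (g 4 * g 5))), ⟨N 0, hN 0, hg 0⟩, ⟨g 1, _,
      ⟨N 1, hN 1, hg 1⟩, ⟨g 2, _, ⟨N 2, hN 2, hg 2⟩, ⟨g 3, _, ⟨N 3, hN 3, hg 3⟩,
      ⟨g 4, g 5 * 1, ⟨N 4, hN 4, hg 4⟩, ⟨g 5, 1, ⟨N 5, hN 5, hg 5⟩, rfl, rfl⟩, ?_⟩, rfl⟩, rfl⟩,
      rfl⟩, ?_⟩
    · rw [mul_one]
    · rw [Fin.prod_univ_six]
      ring
  have := realList_replicate ⟨6, Z6⟩ six _ h6 26 M hM
  rw [hpe, ← hq]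
  exact this

theorem not_sa_of {n : ℕ} {Z : Matrix (Fin n) (Fin n) Bool} (p : ℝ[X]) (hp : p.Monic)
    (hd : p.natDegree = n) (h : ¬ Real1 Z p) : ¬ SA Z := fun hs => h (hs p hp hd)

theorem not_sa_Z6 : ¬ SA Z6 :=
  not_sa_of (X ^ 6 + 1) (by monicity!) (by compute_degree!) not_Z6

theorem not_sa_ZB : ¬ SA ZB :=
  not_sa_of (X ^ 8 + X) (by monicity!) (by compute_degree!) not_ZB

theorem not_sa_ZT : ¬ SA ZT :=
  not_sa_of (X ^ 8 + X ^ 3 + 1) (by monicity!) (by compute_degree!) not_ZT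

theorem not_sa_ZJ : ¬ SA ZJ :=
  not_sa_of (X ^ 8 + X ^ 3) (by monicity!) (by compute_degree!) not_ZJ

theorem main : ∃ (P : Pat) (Q : Pat), ¬ SA P.2 ∧ ¬ SA Q.2 ∧ SA (dsum P.2 Q.2) := by
  apply telescope _ _ _ sa_big
  intro Q hQ
  simp only [List.mem_cons, List.mem_append, List.mem_replicate, six, List.not_mem_nil,
    or_false] at hQ
  rcases hQ with rfl | ⟨-, rfl⟩ | rfl | rfl | rfl | rfl | rfl | rfl
  · exact not_sa_Z6
  · exact not_sa_Z6
  · exact not_sa_ZB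
  · exact not_sa_ZB
  · exact not_sa_ZB
  · exact not_sa_ZT
  · exact not_sa_ZT
  · exact not_sa_ZJ

end Pool.Agent.X258.SAP
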